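import Mathlib

/-!
# Online scheduling with rejection: the gap `1 + φ - R(m)` is at most polynomially small

For deterministic online scheduling with rejection on `m` identical machines, the competitive
ratio satisfies `1 + φ - R(m) ≤ C * ((1 + log m)^3 / m)^(1/φ^2)` with an absolute constant `C`
(`1/φ^2 = 0.38...`).  The adversary uses unit running times only.

*Initial phase.*  Jobs `(1, E/3)` with `E = 1 - (c-1) S` (`S` = penalties paid so far) have to be
rejected; `E` is at least halved every time.  Afterwards `Y = 2 + S - c ≥ g/2` for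
`c = φ^2 - g`.

*Stages.*  With `R` rejected jobs, give `2(R+1)` jobs of penalty `ε = u Y / (R+1)`.  If fewer than
`δ (R+1)` are rejected, then jobs with a huge penalty force makespan `2`, while the optimum
rejects only `R + r + 1` of the cheap jobs.  Otherwise `Y` grows by the factor `1 + u x` while
`R + 1` grows by the factor `1 + x`.  The potential `n + (8/δ^2) (R+1) (2/Y)^s` does not
increase, and `Y ≤ 2` throughout.
-/

set_option autoImplicit false

namespace Pool.Agent.Results.MP_0ea0cb_lc.PolynomialGap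

/-- A job: running time `t > 0` and rejection penalty `p > 0`. -/
structure Job where
  t : ℝ
  p : ℝ
  t_pos : 0 < t
  p_pos : 0 < p

/-- An outcome for the job sequence `σ` on `m` machines: every job is rejected (`none`) or
assigned to one machine. -/
abbrev Sched (m : ℕ) (σ : List Job) : Type := Fin σ.length → Option (Fin m)

/-- The load of machine `k`. -/
noncomputable def load {m : ℕ} (σ : List Job) (s : Sched m σ) (k : Fin m) : ℝ :=
  ∑ i, if s i = some k then (σ.get i).t else 0

/-- The cost of an outcome: the maximum machine load plus the penalties of the rejected jobs. -/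
noncomputable def cost {m : ℕ} (σ : List Job) (s : Sched m σ) : ℝ :=
  (⨆ k, load σ s k) + ∑ i, if s i = none then (σ.get i).p else 0

/-- The offline optimum on `m` machines. -/
noncomputable def opt (m : ℕ) (σ : List Job) : ℝ := ⨅ s : Sched m σ, cost σ s

/-- A deterministic online algorithm on `m` machines: a decision for the current job (second
argument) that may depend on the previous jobs (first argument). -/
abbrev Alg (m : ℕ) : Type := List Job → Job → Option (Fin m)

/-- The outcome produced by an online algorithm on the sequence `σ`. -/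
def Alg.sched {m : ℕ} (A : Alg m) (σ : List Job) : Sched m σ :=
  fun i => A (σ.take i) (σ.get i)

/-- Some deterministic online algorithm on `m` machines is `c`-competitive. -/
def Competitive (m : ℕ) (c : ℝ) : Prop :=
  ∃ A : Alg m, ∀ σ : List Job, cost σ (Alg.sched A σ) ≤ c * opt m σ

/-- The deterministic competitive ratio `R(m)`. -/
noncomputable def R (m : ℕ) : ℝ := sInf {c : ℝ | Competitive m c}

section Basics

variable {m : ℕ}

/-- Sum over the jobs of a sequence, with access to the previous jobs. -/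
def T {M : Type} [AddCommMonoid M] (F : List Job → Job → M) (σ : List Job) : M :=
  ∑ i : Fin σ.length, F (σ.take i) (σ.get i)

lemma T_nil {M : Type} [AddCommMonoid M] (F : List Job → Job → M) : T F [] = 0 := by
  simp [T]

lemma T_concat {M : Type} [AddCommMonoid M] (F : List Job → Job → M) (σ : List Job) (j : Job) :
    T F (σ ++ [j]) = T F σ + F σ j := by
  unfold T
  have h : (σ ++ [j]).length = σ.length + 1 := by simp
  rw [Fintype.sum_equiv (finCongr h) _
    (fun i : Fin (σ.length + 1) => F ((σ ++ [j]).take i) ((σ ++ [j]).get ((finCongr h).symm i)))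
    (by intro i; simp)]
  rw [Fin.sum_univ_castSucc]
  congr 1
  · apply Finset.sum_congr rfl
    intro i _
    have hi : (i : ℕ) ≤ σ.length := i.2.le
    simp [List.take_append_of_le_length hi]
  · simp

lemma load_eq (A : Alg m) (σ : List Job) (k : Fin m) :
    load σ (Alg.sched A σ) k = T (fun h j => if A h j = some k then j.t else 0) σ := rfl

/-- Penalty paid by the algorithm. -/
noncomputable def pen (A : Alg m) (σ : List Job) : ℝ :=
  T (fun h j => if A h j = none then j.p else 0) σ

lemma cost_eq (A : Alg m) (σ : List Job) :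
    cost σ (Alg.sched A σ) = (⨆ k, load σ (Alg.sched A σ) k) + pen A σ := rfl

lemma load_nonneg (σ : List Job) (s : Sched m σ) (k : Fin m) : 0 ≤ load σ s k := by
  unfold load
  apply Finset.sum_nonneg
  intro i _
  split_ifs
  · exact (σ.get i).t_pos.le
  · exact le_refl _

lemma load_le_sup (σ : List Job) (s : Sched m σ) (k : Fin m) :
    load σ s k ≤ ⨆ k, load σ s k :=
  le_ciSup (Finite.bddAbove_range _) k

lemma sup_nonneg (σ : List Job) (s : Sched m σ) : 0 ≤ ⨆ k, load σ s k :=
  Real.iSup_nonneg fun k => load_nonneg σ s k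

lemma penS_nonneg (σ : List Job) (s : Sched m σ) :
    0 ≤ ∑ i, if s i = none then (σ.get i).p else 0 := by
  apply Finset.sum_nonneg
  intro i _
  split_ifs
  · exact (σ.get i).p_pos.le
  · exact le_refl _

lemma cost_nonneg (σ : List Job) (s : Sched m σ) : 0 ≤ cost σ s :=
  add_nonneg (sup_nonneg σ s) (penS_nonneg σ s)

lemma opt_le (σ : List Job) (s : Sched m σ) : opt m σ ≤ cost σ s :=
  ciInf_le ⟨0, by rintro _ ⟨s, rfl⟩; exact cost_nonneg σ s⟩ s

lemma le_opt (σ : List Job) (x : ℝ) (h : ∀ s : Sched m σ, x ≤ cost σ s) : x ≤ opt m σ :=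
  le_ciInf h

lemma opt_nonneg (σ : List Job) : 0 ≤ opt m σ := le_opt σ 0 fun s => cost_nonneg σ s

end Basics

section Lower

variable {m : ℕ}

/-- Number of accepted jobs. -/
noncomputable def nA (A : Alg m) (σ : List Job) : ℕ :=
  T (fun h j => if A h j = none then 0 else 1) σ

/-- Number of rejected jobs. -/
noncomputable def nR (A : Alg m) (σ : List Job) : ℕ :=
  T (fun h j => if A h j = none then 1 else 0) σ

/-- Number of jobs on machine `k`. -/
noncomputable def cnt (A : Alg m) (k : Fin m) (σ : List Job) : ℕ :=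
  T (fun h j => if A h j = some k then 1 else 0) σ

lemma pen_concat (A : Alg m) (σ : List Job) (j : Job) :
    pen A (σ ++ [j]) = pen A σ + (if A σ j = none then j.p else 0) := T_concat _ _ _

lemma nA_concat (A : Alg m) (σ : List Job) (j : Job) :
    nA A (σ ++ [j]) = nA A σ + (if A σ j = none then 0 else 1) := T_concat _ _ _

lemma nR_concat (A : Alg m) (σ : List Job) (j : Job) :
    nR A (σ ++ [j]) = nR A σ + (if A σ j = none then 1 else 0) := T_concat _ _ _

lemma cnt_concat (A : Alg m) (k : Fin m) (σ : List Job) (j : Job) :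
    cnt A k (σ ++ [j]) = cnt A k σ + (if A σ j = some k then 1 else 0) := T_concat _ _ _

lemma sum_cnt (A : Alg m) (σ : List Job) : ∑ k, cnt A k σ = nA A σ := by
  induction σ using List.reverseRecOn with
  | nil => simp [cnt, nA, T_nil]
  | append_singleton σ j ih =>
    simp only [cnt_concat, nA_concat, Finset.sum_add_distrib, ih]
    congr 1
    cases hA : A σ j with
    | none => simp
    | some k => simp

lemma nA_add_nR (A : Alg m) (σ : List Job) : nA A σ + nR A σ = σ.length := by
  induction σ using List.reverseRecOn with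
  | nil => simp [nA, nR, T_nil]
  | append_singleton σ j ih =>
    rw [nA_concat, nR_concat, List.length_append, List.length_singleton]
    split_ifs <;> omega

/-- All running times are one. -/
def Unit1 (σ : List Job) : Prop := ∀ j ∈ σ, j.t = 1

lemma unit_concat {σ : List Job} {j : Job} (h : Unit1 (σ ++ [j])) : Unit1 σ ∧ j.t = 1 :=
  ⟨fun i hi => h i (by simp [hi]), h j (by simp)⟩

lemma load_cnt (A : Alg m) (k : Fin m) (σ : List Job) (h : Unit1 σ) :
    load σ (Alg.sched A σ) k = (cnt A k σ : ℝ) := by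
  rw [load_eq]
  induction σ using List.reverseRecOn with
  | nil => simp [cnt, T_nil]
  | append_singleton σ j ih =>
    obtain ⟨h1, h2⟩ := unit_concat h
    rw [T_concat, ih h1, cnt_concat, h2]
    push_cast
    split_ifs <;> simp

lemma cost_ge_one (A : Alg m) (σ : List Job) (h : Unit1 σ) (h1 : 1 ≤ nA A σ) :
    1 + pen A σ ≤ cost σ (Alg.sched A σ) := by
  rw [cost_eq]
  have hk : ∃ k, 1 ≤ cnt A k σ := by
    by_contra hcon
    push Not at hcon
    have : ∑ k, cnt A k σ = 0 := Finset.sum_eq_zero fun k _ => by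
      have := hcon k
      omega
    rw [sum_cnt] at this
    omega
  obtain ⟨k, hk⟩ := hk
  have h2 := load_le_sup σ (Alg.sched A σ) k
  rw [load_cnt A k σ h] at h2
  have h3 : (1 : ℝ) ≤ (cnt A k σ : ℝ) := by exact_mod_cast hk
  linarith

lemma cost_ge_two (A : Alg m) (σ : List Job) (h : Unit1 σ) (h1 : m + 1 ≤ nA A σ) :
    2 + pen A σ ≤ cost σ (Alg.sched A σ) := by
  rw [cost_eq]
  have hk : ∃ k, 2 ≤ cnt A k σ := by
    by_contra hcon
    push Not at hcon
    have : ∑ k, cnt A k σ ≤ ∑ _k : Fin m, 1 := Finset.sum_le_sum fun k _ => by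
      have := hcon k
      omega
    rw [sum_cnt] at this
    simp at this
    omega
  obtain ⟨k, hk⟩ := hk
  have h2 := load_le_sup σ (Alg.sched A σ) k
  rw [load_cnt A k σ h] at h2
  have h3 : (2 : ℝ) ≤ (cnt A k σ : ℝ) := by exact_mod_cast hk
  linarith

lemma rep_step (A : Alg m) (j : Job) (σ : List Job) (M : ℕ) :
    ∃ r ≤ M, nR A (σ ++ List.replicate M j) = nR A σ + r ∧
      pen A (σ ++ List.replicate M j) = pen A σ + r * j.p := by
  induction M with
  | zero => exact ⟨0, le_refl _, by simp, by simp⟩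
  | succ M ih =>
    obtain ⟨r, hr, h1, h2⟩ := ih
    have e : σ ++ List.replicate (M + 1) j = (σ ++ List.replicate M j) ++ [j] := by
      rw [List.replicate_succ', List.append_assoc]
    rw [e, nR_concat, pen_concat, h1, h2]
    cases hA : A (σ ++ List.replicate M j) j with
    | none =>
      refine ⟨r + 1, by omega, ?_, ?_⟩
      · simp only [if_true]
        omega
      · simp only [if_true]
        push_cast
        ring
    | some k =>
      refine ⟨r, by omega, ?_, ?_⟩
      · simp only [reduceCtorEq, if_false]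
        omega
      · simp

/-- Rejecting everything. -/
lemma opt_le_sum (hm : 1 ≤ m) (σ : List Job) :
    opt m σ ≤ ∑ i : Fin σ.length, (σ.get i).p := by
  refine (opt_le σ (fun _ => none)).trans ?_
  unfold cost load
  have : Nonempty (Fin m) := ⟨⟨0, hm⟩⟩
  simp

/-- Accept all jobs except a block of `M` jobs. -/
lemma opt_block (hm : 1 ≤ m) (ρ : List Job) (N M : ℕ) (ε : ℝ) (hε : 0 ≤ ε)
    (ht : ∀ i : Fin ρ.length, (ρ.get i).t = 1)
    (hp : ∀ i : Fin ρ.length, N ≤ (i : ℕ) → (i : ℕ) < N + M → (ρ.get i).p ≤ ε)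
    (hN : N ≤ m) (hlen : ρ.length ≤ m + M) : opt m ρ ≤ 1 + M * ε := by
  classical
  let s : Sched m ρ := fun i =>
    if h1 : (i : ℕ) < N then some ⟨i, by omega⟩
    else if h2 : (i : ℕ) < N + M then none
    else some ⟨i - M, by have := i.2; omega⟩
  refine (opt_le ρ s).trans ?_
  unfold cost
  have : Nonempty (Fin m) := ⟨⟨0, hm⟩⟩
  apply add_le_add
  · apply ciSup_le
    intro k
    unfold load
    have h1 : ∀ i : Fin ρ.length, (if s i = some k then (ρ.get i).t else 0) =
        if s i = some k then (1 : ℝ) else 0 := by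
      intro i
      rw [ht i]
    rw [Finset.sum_congr rfl fun i _ => h1 i, Finset.sum_boole]
    have h2 : (Finset.univ.filter fun i : Fin ρ.length => s i = some k).card ≤ 1 := by
      apply Finset.card_le_one.mpr
      intro i hi i' hi'
      have hi := (Finset.mem_filter.mp hi).2
      have hi' := (Finset.mem_filter.mp hi').2
      simp only [s] at hi hi'
      apply Fin.ext
      split_ifs at hi hi' <;>
        simp only [Option.some.injEq] at hi hi' <;>
        · have e1 := congrArg Fin.val hi
          have e2 := congrArg Fin.val hi'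
          simp only at e1 e2
          omega
    exact_mod_cast h2
  · have h1 : ∀ i : Fin ρ.length, (if s i = none then (ρ.get i).p else 0) ≤
        if (N ≤ (i : ℕ) ∧ (i : ℕ) < N + M) then ε else 0 := by
      intro i
      by_cases a1 : (i : ℕ) < N
      · have hs : s i ≠ none := by
          simp only [s]
          rw [dif_pos a1]
          simp
        rw [if_neg hs, if_neg (by omega)]
      · by_cases a2 : (i : ℕ) < N + M
        · have hs : s i = none := by
            simp only [s]
            rw [dif_neg a1, dif_pos a2]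
          rw [if_pos hs, if_pos ⟨by omega, a2⟩]
          exact hp i (by omega) a2
        · have hs : s i ≠ none := by
            simp only [s]
            rw [dif_neg a1, dif_neg a2]
            simp
          rw [if_neg hs, if_neg (by omega)]
    refine (Finset.sum_le_sum fun i _ => h1 i).trans ?_
    rw [← Finset.sum_filter, Finset.sum_const, nsmul_eq_mul]
    apply mul_le_mul_of_nonneg_right _ hε
    have h3 : (Finset.univ.filter fun i : Fin ρ.length => N ≤ (i : ℕ) ∧ (i : ℕ) < N + M).card ≤
        (Finset.Ico N (N + M)).card := by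
      apply Finset.card_le_card_of_injOn (fun i : Fin ρ.length => (i : ℕ))
      · intro i hi
        have := (Finset.mem_filter.mp hi).2
        simp only [Finset.coe_Ico, Set.mem_Ico]
        exact this
      · intro i _ i' _ h
        exact Fin.ext h
    rw [Nat.card_Ico] at h3
    have h4 : (Finset.univ.filter fun i : Fin ρ.length =>
        N ≤ (i : ℕ) ∧ (i : ℕ) < N + M).card ≤ M := by omega
    exact_mod_cast h4

lemma opt_le_one (hm : 1 ≤ m) (σ : List Job) (h : Unit1 σ) (hlen : σ.length ≤ m) :
    opt m σ ≤ 1 := by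
  have := opt_block hm σ 0 0 0 (le_refl _) (fun i => h _ (List.get_mem _ _)) (by intro i; omega)
    (by omega) (by omega)
  simpa using this

/-- Unit job with given penalty. -/
noncomputable def uj (p : ℝ) (hp : 0 < p) : Job := ⟨1, p, one_pos, hp⟩

lemma unit_append {σ : List Job} (h : Unit1 σ) (M : ℕ) (p : ℝ) (hp : 0 < p) :
    Unit1 (σ ++ List.replicate M (uj p hp)) := by
  intro j hj
  rw [List.mem_append] at hj
  rcases hj with hj | hj
  · exact h j hj
  · rw [List.eq_of_mem_replicate hj]; rfl

/-- Forced jobs after a block of cheap jobs. -/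
lemma final_blow (hm : 1 ≤ m) (A : Alg m) (c : ℝ) (hc : c ≤ 3)
    (hA : ∀ σ : List Job, cost σ (Alg.sched A σ) ≤ c * opt m σ)
    (σ : List Job) (hu : Unit1 σ) (M : ℕ) (ε : ℝ) (hε : 0 < ε)
    (hlen : σ.length + M ≤ m)
    (hM : nR A (σ ++ List.replicate M (uj ε hε)) + 1 ≤ M)
    (hb : (nR A (σ ++ List.replicate M (uj ε hε)) + 1) * ε ≤ 2) :
    2 + pen A (σ ++ List.replicate M (uj ε hε)) ≤
      c * (1 + (nR A (σ ++ List.replicate M (uj ε hε)) + 1) * ε) := by
  set σ' := σ ++ List.replicate M (uj ε hε) with hσ'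
  have hu' : Unit1 σ' := unit_append hu M ε hε
  have hlen' : σ'.length = σ.length + M := by simp [hσ']
  have hsum := nA_add_nR A σ'
  obtain ⟨F, hF⟩ : ∃ F, nA A σ' + F = m + 1 := ⟨m + 1 - nA A σ', by omega⟩
  have hB : (0 : ℝ) < 10 := by norm_num
  obtain ⟨q, hq, f1, f2⟩ := rep_step A (uj 10 hB) σ' F
  set ρ := σ' ++ List.replicate F (uj 10 hB) with hρ
  have huρ : Unit1 ρ := unit_append hu' F 10 hB
  have hρlen : ρ.length = σ.length + M + F := by
    rw [hρ, List.length_append, List.length_replicate, hlen']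
  have hsum' := nA_add_nR A ρ
  have hopt : opt m ρ ≤ 1 + ((nR A σ' + 1 : ℕ) : ℝ) * ε := by
    apply opt_block hm ρ σ.length (nR A σ' + 1) ε hε.le
    · intro i
      exact huρ _ (List.get_mem _ _)
    · intro i hi1 hi2
      have h1 : (i : ℕ) < σ'.length := by rw [hlen']; omega
      have h2 : ρ.get i = uj ε hε := by
        rw [List.get_eq_getElem]
        rw [List.getElem_append_left h1]
        rw [List.getElem_append_right hi1]
        simp
      rw [h2]
      exact le_refl _
    · omega
    · rw [hρlen]; omega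
  push_cast at hopt
  have hcost := hA ρ
  have hc0 : 0 ≤ c := by
    -- the optimum is positive on a one job instance
    by_contra hneg
    push Not at hneg
    have h1 := hA ρ
    have h2 := cost_nonneg ρ (Alg.sched A ρ)
    have h3 := opt_nonneg (m := m) ρ
    have h4 : opt m ρ = 0 := by nlinarith
    have h5 : cost ρ (Alg.sched A ρ) = 0 := by nlinarith
    rcases Nat.eq_zero_or_pos q with hq0 | hq0
    · have hnρ : m + 1 ≤ nA A ρ := by omega
      have h6 := cost_ge_two A ρ huρ hnρ
      have h7 : 0 ≤ pen A ρ := penS_nonneg ρ (Alg.sched A ρ)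
      linarith
    · have h7 : 0 ≤ pen A σ' := penS_nonneg σ' (Alg.sched A σ')
      have h8 : pen A ρ = pen A σ' + q * 10 := f2
      have h9 : (1 : ℝ) ≤ q := by exact_mod_cast hq0
      have h10 := sup_nonneg ρ (Alg.sched A ρ)
      rw [cost_eq] at h5
      linarith
  have hcopt : c * opt m ρ ≤ c * (1 + (nR A σ' + 1) * ε) :=
    mul_le_mul_of_nonneg_left hopt hc0
  rcases Nat.eq_zero_or_pos q with hq0 | hq0
  · subst hq0
    have hnρ : m + 1 ≤ nA A ρ := by omega
    have h2 := cost_ge_two A ρ huρ hnρ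
    have h3 : pen A ρ = pen A σ' := by rw [f2]; simp
    rw [h3] at h2
    linarith
  · exfalso
    have h3 : 10 ≤ pen A ρ := by
      rw [f2]
      have hBp : (uj 10 hB).p = 10 := rfl
      rw [hBp]
      have : (1 : ℝ) ≤ q := by exact_mod_cast hq0
      have h7 : 0 ≤ pen A σ' := penS_nonneg σ' (Alg.sched A σ')
      linarith
    have h4 : pen A ρ ≤ cost ρ (Alg.sched A ρ) := by
      rw [cost_eq]
      have := sup_nonneg ρ (Alg.sched A ρ)
      linarith
    have h5 : c * (1 + (nR A σ' + 1) * ε) ≤ 3 * (1 + 2) := by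
      apply mul_le_mul hc (by linarith) _ (by norm_num)
      have : 0 ≤ ((nR A σ' : ℝ) + 1) * ε := by positivity
      linarith
    linarith


lemma pen_le_cost (A : Alg m) (σ : List Job) : pen A σ ≤ cost σ (Alg.sched A σ) := by
  rw [cost_eq]
  have := sup_nonneg σ (Alg.sched A σ)
  linarith

lemma pen_nonneg (A : Alg m) (σ : List Job) : 0 ≤ pen A σ := penS_nonneg σ (Alg.sched A σ)

/-- One step of the potential argument. -/
lemma potential_step (δ s u x : ℝ) (hδ : 0 < δ) (hδ4 : δ ≤ 1 / 4) (hs : 1 ≤ s) (hu : 0 < u)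
    (hsu : 1 + δ / 2 ≤ s * u) (hx : δ ≤ x) :
    1 + x ≤ (1 - δ ^ 2 / 4) * (1 + u * x) ^ s := by
  have hx0 : 0 < x := lt_of_lt_of_le hδ hx
  have h1 : 1 + s * (u * x) ≤ (1 + u * x) ^ s :=
    one_add_mul_self_le_rpow_one_add (by nlinarith [mul_pos hu hx0]) hs
  have h2 : 1 + (1 + δ / 2) * x ≤ (1 + u * x) ^ s := by nlinarith
  have h3 : 0 < 1 - δ ^ 2 / 4 := by nlinarith
  have h4 : (1 - δ ^ 2 / 4) * (1 + (1 + δ / 2) * x) ≤ (1 - δ ^ 2 / 4) * (1 + u * x) ^ s :=
    mul_le_mul_of_nonneg_left h2 h3.le
  refine le_trans ?_ h4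
  nlinarith [mul_nonneg hδ.le (sub_nonneg.mpr hx), mul_pos hδ hx0, mul_nonneg (mul_pos hδ hx0).le (sub_nonneg.mpr hδ4),
    mul_nonneg (mul_nonneg (mul_pos hδ hx0).le hδ.le) (sub_nonneg.mpr hδ4)]

/-- The stages. -/
lemma stages (hm : 1 ≤ m) (A : Alg m) (c : ℝ) (hc : c ≤ Real.goldenRatio ^ 2) (hc1 : 1 ≤ c)
    (hA : ∀ σ : List Job, cost σ (Alg.sched A σ) ≤ c * opt m σ)
    (δ : ℝ) (hδ : 0 < δ) (hδ4 : δ ≤ 1 / 4) (n : ℕ) :
    ∀ σ : List Job, Unit1 σ → m ≤ nR A σ + n → 0 < 2 + pen A σ - c →
      (σ.length : ℝ) + 8 / δ ^ 2 * ((nR A σ + 1) *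
        (2 / (2 + pen A σ - c)) ^ (Real.goldenRatio ^ 2 * (1 + 2 * δ))) ≤ m → False := by
  have hφ0 := Real.goldenRatio_pos
  have hφ1 := Real.one_lt_goldenRatio
  have hφ2 := Real.goldenRatio_lt_two
  have hφsq := Real.goldenRatio_sq
  set φ := Real.goldenRatio with hφ
  have hc3 : c ≤ 3 := by linarith
  set s := φ ^ 2 * (1 + 2 * δ) with hs
  set u := (1 - δ) / φ ^ 2 with hu
  have hφsq0 : 0 < φ ^ 2 := by positivity
  have hu0 : 0 < u := by
    apply div_pos _ hφsq0
    linarith
  have huφ : u * φ ^ 2 = 1 - δ := by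
    rw [hu]
    field_simp
  have hs1 : 1 ≤ s := by
    rw [hs, hφsq]
    nlinarith
  have hsu : 1 + δ / 2 ≤ s * u := by
    have : s * u = (u * φ ^ 2) * (1 + 2 * δ) := by rw [hs]; ring
    rw [this, huφ]
    nlinarith
  induction n with
  | zero =>
    intro σ _ hn hY hpot
    have h1 := nA_add_nR A σ
    have h2 : (m : ℝ) ≤ (σ.length : ℝ) := by
      have : m ≤ σ.length := by omega
      exact_mod_cast this
    have h3 : 0 < 8 / δ ^ 2 * (((nR A σ : ℝ) + 1) * (2 / (2 + pen A σ - c)) ^ s) := by
      have : 0 < (2 / (2 + pen A σ - c)) ^ s := Real.rpow_pos_of_pos (by positivity) _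
      positivity
    linarith
  | succ n ih =>
    intro σ hun hn hY hpot
    set Y := 2 + pen A σ - c with hYdef
    set Rr : ℝ := (nR A σ : ℝ) + 1 with hRr
    have hRr1 : 1 ≤ Rr := by
      rw [hRr]
      have : (0 : ℝ) ≤ (nR A σ : ℝ) := Nat.cast_nonneg _
      linarith
    have hlenm : σ.length ≤ m := by
      have h3 : 0 < 8 / δ ^ 2 * (Rr * (2 / Y) ^ s) := by
        have : 0 < (2 / Y) ^ s := Real.rpow_pos_of_pos (by positivity) _
        positivity
      have : (σ.length : ℝ) ≤ m := by linarith
      exact_mod_cast this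
    have hY2 : Y ≤ 2 := by
      have h1 := pen_le_cost A σ
      have h2 := hA σ
      have h3 := opt_le_one hm σ hun hlenm
      have h4 : c * opt m σ ≤ c * 1 := mul_le_mul_of_nonneg_left h3 (by linarith)
      rw [hYdef]
      linarith
    have hpow1 : 1 ≤ (2 / Y) ^ s := by
      apply Real.one_le_rpow
      · rw [le_div_iff₀ hY]
        linarith
      · linarith
    have h8 : 2 ≤ 8 / δ ^ 2 := by
      rw [le_div_iff₀ (by positivity)]
      nlinarith
    set Q := Rr * (2 / Y) ^ s with hQ
    have hQR : Rr ≤ Q := by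
      rw [hQ]
      nlinarith
    have hroom : (σ.length : ℝ) + 2 * Rr ≤ m := by
      have : 2 * Rr ≤ 8 / δ ^ 2 * Q := by
        apply mul_le_mul h8 hQR (by linarith) (by positivity)
      linarith
    set ε := u * Y / Rr with hε
    have hε0 : 0 < ε := by positivity
    have hεR : ε * Rr = u * Y := by
      rw [hε]
      field_simp
    set M := 2 * (nR A σ + 1) with hM
    have hlenM : σ.length + M ≤ m := by
      have : ((σ.length + M : ℕ) : ℝ) ≤ (m : ℝ) := by
        rw [hM]
        push_cast
        linarith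
      exact_mod_cast this
    obtain ⟨r, hrM, hr1, hr2⟩ := rep_step A (uj ε hε0) σ M
    have hpj : (uj ε hε0).p = ε := rfl
    rw [hpj] at hr2
    set σ' := σ ++ List.replicate M (uj ε hε0) with hσ'
    have hun' : Unit1 σ' := unit_append hun M ε hε0
    have hlen' : σ'.length = σ.length + M := by simp [hσ']
    have hrr : (0 : ℝ) ≤ r := Nat.cast_nonneg r
    by_cases hcase : (r : ℝ) < δ * Rr
    · have hrR : (r : ℝ) < Rr := by nlinarith
      have hrn : r < nR A σ + 1 := by
        have : (r : ℝ) < ((nR A σ + 1 : ℕ) : ℝ) := by push_cast; exact hrR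
        exact_mod_cast this
      have hb : ((nR A σ' : ℝ) + 1) * ε = (Rr + r) * ε := by
        rw [hr1]
        push_cast
        ring
      have hu12 : u * φ ^ 2 ≤ 1 := by rw [huφ]; linarith
      have hu13 : u ≤ 1 / 2 := by
        rw [hφsq] at hu12
        nlinarith
      have hfb := final_blow hm A c hc3 hA σ hun M ε hε0 hlenM (by rw [← hσ', hr1]; omega)
        (by
          rw [← hσ', hb]
          have : (Rr + r) * ε ≤ (Rr + Rr) * ε := by
            apply mul_le_mul_of_nonneg_right (by linarith) hε0.le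
          have h5 : (Rr + Rr) * ε = 2 * (u * Y) := by linarith
          nlinarith [mul_nonneg hu0.le hY.le])
      rw [← hσ', hb, hr2] at hfb
      -- `Y + r ε ≤ c (Rr + r) ε`
      have h6 : Y ≤ c * (u * Y) + (c - 1) * (r * ε) := by
        have e1 : c * (1 + (Rr + r) * ε) = c + c * (ε * Rr) + c * (r * ε) := by ring
        rw [e1, hεR] at hfb
        have : 2 + (pen A σ + r * ε) = Y + c + r * ε := by rw [hYdef]; ring
        rw [this] at hfb
        linarith
      have h7 : r * ε ≤ δ * (u * Y) := by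
        have : r * ε ≤ (δ * Rr) * ε := mul_le_mul_of_nonneg_right hcase.le hε0.le
        have h9 : (δ * Rr) * ε = δ * (u * Y) := by rw [← hεR]; ring
        linarith
      have h8' : (c - 1) * (r * ε) ≤ (c - 1) * (δ * (u * Y)) :=
        mul_le_mul_of_nonneg_left h7 (by linarith)
      have h9 : Y ≤ (c * u + (c - 1) * δ * u) * Y := by nlinarith
      have h10 : 1 ≤ c * u + (c - 1) * δ * u := by
        by_contra hcon
        push Not at hcon
        nlinarith
      have h11 : c * u ≤ 1 - δ := by
        rw [← huφ, mul_comm u]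
        exact mul_le_mul_of_nonneg_right hc hu0.le
      have h12 : (c - 1) * δ * u ≤ φ * δ * u := by
        apply mul_le_mul_of_nonneg_right _ hu0.le
        apply mul_le_mul_of_nonneg_right _ hδ.le
        linarith
      have h13 : φ * u < 1 := by
        have : φ * u * φ ≤ 1 := by nlinarith
        nlinarith [mul_pos hφ0 hu0]
      nlinarith
    · push Not at hcase
      have hr0 : 0 < (r : ℝ) := lt_of_lt_of_le (by positivity) hcase
      have hr0' : 0 < r := by exact_mod_cast hr0
      set x := (r : ℝ) / Rr with hx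
      have hxR : x * Rr = r := by
        rw [hx]
        field_simp
      have hxδ : δ ≤ x := by
        rw [hx, le_div_iff₀ (by linarith)]
        exact hcase
      have hx0 : 0 < x := lt_of_lt_of_le hδ hxδ
      have hstep := potential_step δ s u x hδ hδ4 hs1 hu0 hsu hxδ
      have hY' : 2 + pen A σ' - c = Y * (1 + u * x) := by
        rw [hr2, ← hxR]
        have : Y * (1 + u * x) = Y + x * (u * Y) := by ring
        rw [this, ← hεR, hYdef]
        ring
      have hR' : ((nR A σ' : ℝ) + 1) = Rr * (1 + x) := by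
        rw [hr1]
        push_cast
        have : Rr * (1 + x) = Rr + x * Rr := by ring
        rw [this, hxR, hRr]
        ring
      have hux : 0 < 1 + u * x := by positivity
      refine ih σ' hun' (by omega) (by rw [hY']; positivity) ?_
      rw [hlen', hY', hR']
      have hpow : (2 / (Y * (1 + u * x))) ^ s = (2 / Y) ^ s / (1 + u * x) ^ s := by
        rw [← div_div, Real.div_rpow (by positivity) hux.le]
      rw [hpow]
      have hpp : 0 < (1 + u * x) ^ s := Real.rpow_pos_of_pos hux _
      have hQ' : Rr * (1 + x) * ((2 / Y) ^ s / (1 + u * x) ^ s) ≤ (1 - δ ^ 2 / 4) * Q := by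
        rw [← mul_div_assoc, div_le_iff₀ hpp, hQ]
        have : 0 < Rr * (2 / Y) ^ s := by positivity
        calc Rr * (1 + x) * (2 / Y) ^ s = (Rr * (2 / Y) ^ s) * (1 + x) := by ring
          _ ≤ (Rr * (2 / Y) ^ s) * ((1 - δ ^ 2 / 4) * (1 + u * x) ^ s) :=
              mul_le_mul_of_nonneg_left hstep this.le
          _ = _ := by ring
      have h14 : 8 / δ ^ 2 * (Rr * (1 + x) * ((2 / Y) ^ s / (1 + u * x) ^ s)) ≤
          8 / δ ^ 2 * ((1 - δ ^ 2 / 4) * Q) := mul_le_mul_of_nonneg_left hQ' (by positivity)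
      have h15 : 8 / δ ^ 2 * ((1 - δ ^ 2 / 4) * Q) = 8 / δ ^ 2 * Q - 2 * Q := by
        field_simp
        ring
      have h16 : ((σ.length + M : ℕ) : ℝ) = σ.length + 2 * Rr := by
        rw [hM]
        push_cast
        ring
      rw [h16]
      linarith


/-- The initial phase: every job is rejected. -/
lemma initial (hm : 1 ≤ m) (A : Alg m) (c : ℝ) (hc : c < 3) (hc1 : 5 / 2 ≤ c)
    (hA : ∀ σ : List Job, cost σ (Alg.sched A σ) ≤ c * opt m σ) (k : ℕ) :
    ∃ σ : List Job, Unit1 σ ∧ σ.length = k ∧ nR A σ = k ∧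
      T (fun _ j => j.p) σ = pen A σ ∧
      0 < 1 - (c - 1) * pen A σ ∧ 1 - (c - 1) * pen A σ ≤ (1 / 2) ^ k := by
  induction k with
  | zero =>
    refine ⟨[], ?_, rfl, ?_, ?_, ?_, ?_⟩
    · intro j hj; simp at hj
    · simp [nR, T_nil]
    · simp [pen, T_nil]
    · simp [pen, T_nil]
    · simp [pen, T_nil]
  | succ k ih =>
    obtain ⟨σ, hun, hlen, hnR, hT, hE0, hE⟩ := ih
    set E := 1 - (c - 1) * pen A σ with hEdef
    have hp : 0 < E / 3 := by positivity
    have hnA : nA A σ = 0 := by
      have := nA_add_nR A σ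
      omega
    have hun' : Unit1 (σ ++ [uj (E / 3) hp]) := by
      intro j hj
      rw [List.mem_append, List.mem_singleton] at hj
      rcases hj with hj | hj
      · exact hun j hj
      · rw [hj]; rfl
    have hpj : (uj (E / 3) hp).p = E / 3 := rfl
    have hrej : A σ (uj (E / 3) hp) = none := by
      by_contra hne
      have h1 : nA A (σ ++ [uj (E / 3) hp]) = 1 := by
        rw [nA_concat, hnA, if_neg hne]
      have h2 := cost_ge_one A _ hun' (by omega)
      have h3 : pen A (σ ++ [uj (E / 3) hp]) = pen A σ := by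
        rw [pen_concat, if_neg hne, add_zero]
      have h4 := hA (σ ++ [uj (E / 3) hp])
      have h5 : opt m (σ ++ [uj (E / 3) hp]) ≤ T (fun _ j => j.p) (σ ++ [uj (E / 3) hp]) :=
        opt_le_sum hm _
      rw [T_concat, hT, hpj] at h5
      have h6 : c * opt m (σ ++ [uj (E / 3) hp]) ≤ c * (pen A σ + E / 3) :=
        mul_le_mul_of_nonneg_left h5 (by linarith)
      rw [h3] at h2
      have h7 : E ≤ c * (E / 3) := by
        rw [hEdef] at *
        linarith
      nlinarith
    refine ⟨σ ++ [uj (E / 3) hp], hun', by simp [hlen], ?_, ?_, ?_, ?_⟩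
    · rw [nR_concat, hnR, if_pos hrej]
    · rw [T_concat, pen_concat, if_pos hrej, hT]
    · rw [pen_concat, if_pos hrej, hpj]
      have : 1 - (c - 1) * (pen A σ + E / 3) = E * ((4 - c) / 3) := by
        rw [hEdef]; ring
      rw [this]
      apply mul_pos hE0
      linarith
    · rw [pen_concat, if_pos hrej, hpj]
      have : 1 - (c - 1) * (pen A σ + E / 3) = E * ((4 - c) / 3) := by
        rw [hEdef]; ring
      rw [this, pow_succ]
      apply mul_le_mul hE (by linarith) (by linarith) (by positivity)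

/-- A competitive algorithm needs few machines. -/
lemma few_machines (hm : 1 ≤ m) (g : ℝ) (hg : 0 < g) (hg1 : g ≤ 1 / 10)
    (hcomp : Competitive m (Real.goldenRatio ^ 2 - g)) (k : ℕ) (hk : (1 / 2 : ℝ) ^ k ≤ g)
    (δ : ℝ) (hδ : 0 < δ) (hδ4 : δ ≤ 1 / 4) :
    (m : ℝ) < k + 8 / δ ^ 2 * ((k + 1) *
        (4 / g) ^ (Real.goldenRatio ^ 2 * (1 + 2 * δ))) := by
  obtain ⟨A, hA⟩ := hcomp
  have hφsq := Real.goldenRatio_sq
  have hφ1 : 1.618 < Real.goldenRatio := by
    unfold Real.goldenRatio
    have : (2.236 : ℝ) < √5 := by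
      apply Real.lt_sqrt_of_sq_lt
      norm_num
    linarith
  have hφ2 : Real.goldenRatio < 1.6181 := by
    unfold Real.goldenRatio
    have : √5 < (2.2361 : ℝ) := by
      rw [Real.sqrt_lt' (by norm_num)]
      norm_num
    linarith
  set φ := Real.goldenRatio with hφ
  set c := φ ^ 2 - g with hc
  have hc25 : 5 / 2 ≤ c := by
    rw [hc, hφsq]; linarith
  have hc3 : c < 3 := by
    rw [hc, hφsq]; linarith
  obtain ⟨σ, hun, hlen, hnR, -, hE0, hE⟩ := initial hm A c hc3 hc25 hA k
  by_contra hcon
  push Not at hcon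
  -- the value of `Y`
  have hY : g / 2 ≤ 2 + pen A σ - c := by
    have h1 : (c - 1) * pen A σ = 1 - (1 - (c - 1) * pen A σ) := by ring
    have h2 : 1 - g ≤ (c - 1) * pen A σ := by linarith
    have h3 : 2 * g ≤ -c ^ 2 + 3 * c - 1 := by
      have : -c ^ 2 + 3 * c - 1 = g * (2 * φ - 1 - g) := by
        have h4 : c = φ + 1 - g := by rw [hc, hφsq]
        rw [h4]
        have : φ * φ = φ + 1 := by rw [← sq, hφsq]
        nlinarith
      rw [this]
      nlinarith
    have h5 : (c - 1) * (g / 2) ≤ (c - 1) * (2 + pen A σ - c) := by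
      nlinarith
    exact le_of_mul_le_mul_left h5 (by linarith)
  have hY0 : 0 < 2 + pen A σ - c := by linarith
  refine stages hm A c (by rw [hc]; linarith) (by linarith) hA δ hδ hδ4 m σ hun
    (by omega) hY0 ?_
  rw [hlen, hnR]
  refine le_trans ?_ hcon
  apply add_le_add le_rfl
  apply mul_le_mul_of_nonneg_left _ (by positivity)
  apply mul_le_mul_of_nonneg_left _ (by positivity)
  apply Real.rpow_le_rpow (by positivity)
  · rw [div_le_div_iff₀ hY0 hg]
    linarith
  · positivity

/-- The same bound with explicit parameters. -/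
lemma few_machines' : ∃ K : ℝ, 1 ≤ K ∧ ∀ m : ℕ, 1 ≤ m → ∀ g : ℝ, 0 < g → g ≤ 1 / 10 →
    Competitive m (Real.goldenRatio ^ 2 - g) →
    (m : ℝ) < K * Real.log (4 / g) ^ 3 * g ^ (-(Real.goldenRatio ^ 2)) := by
  have hφ0 := Real.goldenRatio_pos
  have hφ1 := Real.one_lt_goldenRatio
  set φ := Real.goldenRatio with hφ
  refine ⟨515 * (4 ^ (φ ^ 2) * Real.exp (φ ^ 2 / 2)), ?_, ?_⟩
  · have h1 : (1 : ℝ) ≤ 4 ^ (φ ^ 2) := Real.one_le_rpow (by norm_num) (by positivity)
    have h2 : 1 ≤ Real.exp (φ ^ 2 / 2) := Real.one_le_exp (by positivity)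
    nlinarith
  intro m hm g hg hg1 hcomp
  set Λ := Real.log (4 / g) with hΛ
  have hΛ1 : 1 ≤ Λ := by
    rw [hΛ, Real.le_log_iff_exp_le (by positivity)]
    have := Real.exp_one_lt_d9
    have h40 : (40 : ℝ) ≤ 4 / g := by
      rw [le_div_iff₀ hg]
      linarith
    linarith
  have hΛ0 : 0 < Λ := by linarith
  set k := ⌈2 * Λ⌉₊ with hk
  have hk1 : 2 * Λ ≤ k := Nat.le_ceil _
  have hk2 : (k : ℝ) < 2 * Λ + 1 := Nat.ceil_lt_add_one (by positivity)
  have hkg : (1 / 2 : ℝ) ^ k ≤ g := by
    have h1 : (1 / 2 : ℝ) ^ k = Real.exp (-(k * Real.log 2)) := by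
      rw [← Real.rpow_natCast, Real.rpow_def_of_pos (by norm_num)]
      congr 1
      rw [one_div, Real.log_inv]
      ring
    have h2 : g = 4 * Real.exp (-Λ) := by
      rw [Real.exp_neg, hΛ, Real.exp_log (by positivity)]
      field_simp
    have h3 : Real.exp (-(k * Real.log 2)) ≤ Real.exp (-Λ) := by
      apply Real.exp_le_exp.mpr
      have := Real.log_two_gt_d9
      nlinarith
    have h4 := Real.exp_pos (-Λ)
    rw [h1]
    linarith
  have hδ : 0 < 1 / (4 * Λ) := by positivity
  have hδ4 : 1 / (4 * Λ) ≤ 1 / 4 := by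
    apply one_div_le_one_div_of_le (by norm_num)
    linarith
  have hmain := few_machines hm g hg hg1 hcomp k hkg (1 / (4 * Λ)) hδ hδ4
  have e1 : 8 / (1 / (4 * Λ)) ^ 2 = 128 * Λ ^ 2 := by
    field_simp
    ring
  have e2 : (4 / g) ^ (φ ^ 2 * (1 + 2 * (1 / (4 * Λ)))) =
      (4 ^ (φ ^ 2) * Real.exp (φ ^ 2 / 2)) * g ^ (-(φ ^ 2)) := by
    have h1 : φ ^ 2 * (1 + 2 * (1 / (4 * Λ))) = φ ^ 2 + φ ^ 2 / 2 / Λ := by
      field_simp
      ring
    rw [h1, Real.rpow_add (by positivity), Real.div_rpow (by norm_num) hg.le,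
      Real.rpow_neg hg.le]
    have h2 : (4 / g) ^ (φ ^ 2 / 2 / Λ) = Real.exp (φ ^ 2 / 2) := by
      rw [Real.rpow_def_of_pos (by positivity), ← hΛ]
      congr 1
      field_simp
    rw [h2]
    ring
  rw [e1, e2] at hmain
  set P := 4 ^ (φ ^ 2) * Real.exp (φ ^ 2 / 2) with hP
  have hP1 : 1 ≤ P := by
    have h1 : (1 : ℝ) ≤ 4 ^ (φ ^ 2) := Real.one_le_rpow (by norm_num) (by positivity)
    have h2 : 1 ≤ Real.exp (φ ^ 2 / 2) := Real.one_le_exp (by positivity)
    nlinarith
  set G := g ^ (-(φ ^ 2)) with hG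
  have hG1 : 1 ≤ G := Real.one_le_rpow_of_pos_of_le_one_of_nonpos hg (by linarith)
    (by have : 0 < φ ^ 2 := by positivity
        linarith)
  have hPG : 1 ≤ P * G := by nlinarith
  have h3 : (k : ℝ) ≤ 3 * Λ ^ 3 * (P * G) := by
    have h31 : (k : ℝ) ≤ 3 * Λ := by linarith
    have h32 : Λ ≤ Λ ^ 3 := by
      have : 1 ≤ Λ ^ 2 := by nlinarith
      nlinarith
    have h33 : 0 < Λ ^ 3 := by positivity
    nlinarith
  have h4 : 128 * Λ ^ 2 * ((k + 1) * (P * G)) ≤ 512 * Λ ^ 3 * (P * G) := by
    have h41 : (k : ℝ) + 1 ≤ 4 * Λ := by linarith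
    have h42 : ((k : ℝ) + 1) * (P * G) ≤ (4 * Λ) * (P * G) :=
      mul_le_mul_of_nonneg_right h41 (by positivity)
    have h43 : 128 * Λ ^ 2 * ((k + 1) * (P * G)) ≤ 128 * Λ ^ 2 * ((4 * Λ) * (P * G)) :=
      mul_le_mul_of_nonneg_left h42 (by positivity)
    linarith [show 128 * Λ ^ 2 * ((4 * Λ) * (P * G)) = 512 * Λ ^ 3 * (P * G) by ring]
  calc (m : ℝ) < k + 128 * Λ ^ 2 * ((k + 1) * (P * G)) := hmain
    _ ≤ 3 * Λ ^ 3 * (P * G) + 512 * Λ ^ 3 * (P * G) := add_le_add h3 h4
    _ = _ := by ring

end Lower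

section Existence

/-- Reject exactly the jobs with `p ≤ t`, put the others on machine `0`. -/
noncomputable def trivialAlg (m : ℕ) (hm : 1 ≤ m) : Alg m :=
  fun _ j => if j.p ≤ j.t then none else some ⟨0, hm⟩

lemma competitive_trivial (m : ℕ) (hm : 1 ≤ m) : Competitive m m := by
  classical
  have hm0 : (0 : ℝ) < m := by exact_mod_cast hm
  refine ⟨trivialAlg m hm, fun σ => ?_⟩
  -- the cost of the algorithm
  have h1 : cost σ (Alg.sched (trivialAlg m hm) σ) ≤
      ∑ i : Fin σ.length, min (σ.get i).p (σ.get i).t := by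
    have hN : Nonempty (Fin m) := ⟨⟨0, hm⟩⟩
    have h2 : (⨆ k, load σ (Alg.sched (trivialAlg m hm) σ) k) ≤
        ∑ i : Fin σ.length, if (σ.get i).p ≤ (σ.get i).t then 0 else (σ.get i).t := by
      apply ciSup_le
      intro k
      unfold load
      apply Finset.sum_le_sum
      intro i _
      unfold Alg.sched trivialAlg
      by_cases h : (σ.get i).p ≤ (σ.get i).t
      · simp only [if_pos h]
        simp
      · simp only [if_neg h]
        split_ifs
        · exact le_refl _
        · exact (σ.get i).t_pos.le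
    unfold cost
    refine (add_le_add_left h2 _).trans ?_
    rw [← Finset.sum_add_distrib]
    apply Finset.sum_le_sum
    intro i _
    unfold Alg.sched trivialAlg
    by_cases h : (σ.get i).p ≤ (σ.get i).t
    · simp only [if_pos h]
      rw [min_eq_left h]
      simp
    · simp only [if_neg h]
      rw [min_eq_right (le_of_not_ge h)]
      simp
  have h3 : (1 / (m : ℝ)) * ∑ i : Fin σ.length, min (σ.get i).p (σ.get i).t ≤ opt m σ := by
    apply le_opt
    intro s
    have hm1 : (1 : ℝ) ≤ m := by exact_mod_cast hm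
    have h4 : ∑ k, load σ s k ≤ m * ⨆ k, load σ s k := by
      have := Finset.sum_le_card_nsmul (Finset.univ : Finset (Fin m)) (fun k => load σ s k)
        (⨆ k, load σ s k) (fun k _ => load_le_sup σ s k)
      simpa using this
    have h5 : ∑ k, load σ s k = ∑ i : Fin σ.length, if s i = none then 0 else (σ.get i).t := by
      unfold load
      rw [Finset.sum_comm]
      apply Finset.sum_congr rfl
      intro i _
      cases hs : s i with
      | none => simp
      | some k => simp
    have h6 : ∑ i : Fin σ.length, min (σ.get i).p (σ.get i).t ≤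
        ∑ k, load σ s k + ∑ i, if s i = none then (σ.get i).p else 0 := by
      rw [h5, ← Finset.sum_add_distrib]
      apply Finset.sum_le_sum
      intro i _
      split_ifs
      · simp
      · simp
    have h7 := penS_nonneg σ s
    unfold cost
    rw [one_div, inv_mul_le_iff₀ hm0]
    nlinarith
  have h8 : ∑ i : Fin σ.length, min (σ.get i).p (σ.get i).t ≤ m * opt m σ := by
    rw [one_div, inv_mul_le_iff₀ hm0] at h3
    exact h3
  exact h1.trans h8

end Existence

lemma Competitive.mono {m : ℕ} {c c' : ℝ} (h : Competitive m c) (hcc : c ≤ c') :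
    Competitive m c' := by
  obtain ⟨A, hA⟩ := h
  exact ⟨A, fun σ => (hA σ).trans (mul_le_mul_of_nonneg_right hcc (opt_nonneg σ))⟩

lemma sub_le_R {m : ℕ} (hm : 1 ≤ m) (x : ℝ) (h : ¬ Competitive m x) : x ≤ R m := by
  refine le_csInf ⟨(m : ℝ), competitive_trivial m hm⟩ ?_
  intro c hc
  by_contra hcon
  push Not at hcon
  exact h (Competitive.mono hc hcon.le)

lemma not_competitive_zero {m : ℕ} : ¬ Competitive m 0 := by
  rintro ⟨A, hA⟩
  have h1 := hA [uj 1 one_pos]
  rw [zero_mul] at h1
  have hun : Unit1 [uj 1 one_pos] := by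
    intro j hj
    rw [List.mem_singleton] at hj
    rw [hj]; rfl
  have h2 := nA_add_nR A [uj 1 one_pos]
  have e : [uj 1 one_pos] = ([] : List Job) ++ [uj 1 one_pos] := rfl
  by_cases hrej : A [] (uj 1 one_pos) = none
  · have h3 : pen A [uj 1 one_pos] = 1 := by
      rw [e, pen_concat, if_pos hrej]
      simp [pen, T_nil, uj]
    have := pen_le_cost A [uj 1 one_pos]
    linarith
  · have h3 : nA A [uj 1 one_pos] = 1 := by
      rw [e, nA_concat, if_neg hrej]
      simp [nA, T_nil]
    have := cost_ge_one A _ hun (by omega)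
    have := pen_nonneg A [uj 1 one_pos]
    linarith

theorem result : ∃ C : ℝ, 0 < C ∧ ∀ m : ℕ, 1 ≤ m →
    1 + Real.goldenRatio - R m ≤
      C * ((1 + Real.log m) ^ 3 / m) ^ (1 / Real.goldenRatio ^ 2) := by
  obtain ⟨K, hK1, hK⟩ := few_machines'
  have hφ0 := Real.goldenRatio_pos
  have hφ1 := Real.one_lt_goldenRatio
  have hφ2 := Real.goldenRatio_lt_two
  have hφsq := Real.goldenRatio_sq
  set φ := Real.goldenRatio with hφ
  have hφsq0 : 0 < φ ^ 2 := by positivity
  set a := 1 / φ ^ 2 with ha
  have ha0 : 0 < a := by positivity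
  have ha1 : a ≤ 1 := by
    rw [ha, div_le_one hφsq0]
    nlinarith
  set C' := (8 * K) ^ a with hC'
  have hC'1 : 1 ≤ C' := Real.one_le_rpow (by linarith) ha0.le
  refine ⟨30 * C', by linarith, fun m hm => ?_⟩
  have hm1 : (1 : ℝ) ≤ m := by exact_mod_cast hm
  have hm0 : (0 : ℝ) < m := by linarith
  have hlog : 0 ≤ Real.log m := Real.log_nonneg hm1
  set L := 1 + Real.log m with hL
  have hL1 : 1 ≤ L := by linarith
  have hq0 : 0 < L ^ 3 / m := by positivity
  set g := C' * (L ^ 3 / m) ^ a with hg
  have hg0 : 0 < g := by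
    have := Real.rpow_pos_of_pos hq0 a
    positivity
  have hgoal : 30 * C' * (L ^ 3 / m) ^ a = 30 * g := by rw [hg]; ring
  rw [hgoal]
  have hR0 : 0 ≤ R m := sub_le_R hm 0 not_competitive_zero
  by_cases hg1 : g ≤ 1 / 10
  · have hnot : ¬ Competitive m (φ ^ 2 - g) := by
      intro hcomp
      have h1 := hK m hm g hg0 hg1 hcomp
      -- bound on the logarithm
      have hgm : 1 / (m : ℝ) ≤ g := by
        have h2 : 1 / (m : ℝ) ≤ L ^ 3 / m := by
          apply div_le_div_of_nonneg_right _ hm0.le
          exact one_le_pow₀ hL1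
        have h3 : (1 / (m : ℝ)) ^ (1 : ℝ) ≤ (1 / (m : ℝ)) ^ a :=
          Real.rpow_le_rpow_of_exponent_ge (by positivity) (by
            rw [div_le_one hm0]; exact hm1) ha1
        rw [Real.rpow_one] at h3
        have h4 : (1 / (m : ℝ)) ^ a ≤ (L ^ 3 / m) ^ a :=
          Real.rpow_le_rpow (by positivity) h2 ha0.le
        have h5 : 0 < (L ^ 3 / m) ^ a := Real.rpow_pos_of_pos hq0 a
        rw [hg]
        nlinarith
      have hΛ : Real.log (4 / g) ≤ 2 * L := by
        have h2 : 4 / g ≤ 4 * m := by
          rw [div_le_iff₀ hg0]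
          rw [div_le_iff₀ hm0] at hgm
          nlinarith
        have h3 : Real.log (4 / g) ≤ Real.log (4 * m) :=
          Real.log_le_log (by positivity) h2
        have h4 : Real.log (4 * m) = Real.log 4 + Real.log m :=
          Real.log_mul (by norm_num) hm0.ne'
        have h5 : Real.log 4 ≤ 2 := by
          have : Real.log 4 = 2 * Real.log 2 := by
            rw [show (4 : ℝ) = 2 ^ 2 by norm_num, Real.log_pow]
            norm_num
          have := Real.log_two_lt_d9
          linarith
        rw [hL]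
        linarith
      have hΛ0 : 0 ≤ Real.log (4 / g) := by
        apply Real.log_nonneg
        rw [le_div_iff₀ hg0]
        linarith
      have hpow : g ^ (-(φ ^ 2)) = m / (8 * K * L ^ 3) := by
        have e1 : g = (8 * K * (L ^ 3 / m)) ^ a := by
          rw [hg, hC', Real.mul_rpow (by positivity) hq0.le]
        rw [e1, ← Real.rpow_mul (by positivity)]
        have e2 : a * -φ ^ 2 = -1 := by
          rw [ha]
          field_simp
        rw [e2, Real.rpow_neg_one]
        field_simp
      rw [hpow] at h1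
      have h2 : Real.log (4 / g) ^ 3 ≤ (2 * L) ^ 3 := pow_le_pow_left₀ hΛ0 hΛ 3
      have h3 : K * Real.log (4 / g) ^ 3 * (m / (8 * K * L ^ 3)) ≤
          K * (2 * L) ^ 3 * (m / (8 * K * L ^ 3)) := by
        apply mul_le_mul_of_nonneg_right _ (by positivity)
        apply mul_le_mul_of_nonneg_left h2 (by linarith)
      have h4 : K * (2 * L) ^ 3 * (m / (8 * K * L ^ 3)) = m := by
        have : K ≠ 0 := by linarith
        field_simp
        ring
      linarith
    have h1 := sub_le_R hm _ hnot
    rw [hφsq] at h1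
    linarith
  · push Not at hg1
    linarith

end Pool.Agent.Results.MP_0ea0cb_lc.PolynomialGap
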